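import Pool.Agent.H82.NTC.Pot

/-! # Board `ntc`, row PWJ3 -/

set_option autoImplicit false

namespace Pool.NTC

open Pool.NET

theorem pwj3_thm : PWk Ke.J3 := by
  intro p e g e' g' h u _ _ _ tt _ v a s _ _ hlt
  exfalso
  have e1 : prW p e h u tt (v, Ke.J3) =
      4 * (fy p e (pv2 h u (v, Ke.J3)) + tt (pv2 h u (v, Ke.J3))) + 1 := rfl
  rw [e1] at hlt
  generalize fy p e (pv2 h u (v, Ke.J3)) + tt (pv2 h u (v, Ke.J3)) = x at hlt
  generalize fy p e' a + s = y at hlt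
  have e2 : (4 * x + 1 - 4 * x : ℤ) = 1 := by ring
  rw [e2, abs_one, abs_lt] at hlt
  obtain ⟨h1, h2⟩ := hlt
  omega

end Pool.NTC
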